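import Mathlib
import Pool.Agent.Helper49.NearChainAssembly

/-!
# Bipartite graphs without one-sided induced `2P₃` admit an implicit representation

Order the black vertices (the times) by nondecreasing degree.  For times `p < q` at most one white
vertex is adjacent to `p` and not to `q`.  Every white vertex `w` gets a threshold `τ w` that
minimises the number of exceptions (times before `τ w` adjacent to `w`, or from `τ w` on and not
adjacent to `w`).  An exception `w` at time `i` lives at the scale `s = ⌊log₂ |i - τ w|⌋`.  At every
time there are at most three exceptions per scale, and if `σ < s` are scales of exceptions at time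
`i`, then the exception `w` at scale `s` has at least `2^σ / 2` zeros at distance about `2^s`, hence
is one of `O(2^(s-σ))` such white vertices in the same dyadic block.  Names are then organised along
the dyadic intervals of scales, so that all labels use a bounded number of bits per scale.
-/

open Finset Pool.Agent.Helper49.NearChain

namespace Pool.Agent.Results.MP_e50eb5_co.ImplicitRepresentation

/-- A bipartite graph with a fixed partition of its vertices into an independent set of black
vertices and an independent set of white (that is, not black) vertices. -/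
structure BipartiteGraph (V : Type) where
  /-- the underlying simple graph -/
  graph : SimpleGraph V
  /-- the black vertices; all other vertices are white -/
  black : V → Prop
  /-- adjacent vertices have different colours -/
  bipartite : ∀ x y, graph.Adj x y → (black x ↔ ¬ black y)

/-- The graph `2P₃`: the disjoint union of two paths on three vertices.  The two centres are
`Sum.inl 1` and `Sum.inr 1`. -/
def twoP3 : SimpleGraph (Fin 3 ⊕ Fin 3) :=
  SimpleGraph.sum (SimpleGraph.pathGraph 3) (SimpleGraph.pathGraph 3)

/-- `G` contains a one-sided induced copy of `2P₃`: an induced copy both of whose centres are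
black. -/
def HasOneSidedCopy {V : Type} (G : BipartiteGraph V) : Prop :=
  ∃ φ : twoP3 ↪g G.graph, G.black (φ (Sum.inl 1)) ∧ G.black (φ (Sum.inr 1))

/-- The class `𝒞` of the problem. -/
def ClassC (V : Type) (G : BipartiteGraph V) : Prop := ¬ HasOneSidedCopy G

/-- A class `X` of bipartite graphs admits an implicit representation: there are a constant `c` and
a decoder `f` such that every `n`-vertex graph of the class has a labelling of its vertices by
binary strings of length at most `c log₂ n` for which distinct `x`, `y` are adjacent if and only if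
`f` applied to the two labels is `true`. -/
def AdmitsImplicitRepresentation (X : ∀ V : Type, BipartiteGraph V → Prop) : Prop :=
  ∃ (c : ℝ) (f : List Bool → List Bool → Bool), ∀ (V : Type) [Fintype V] (G : BipartiteGraph V),
    X V G → ∃ label : V → List Bool,
      (∀ v, ((label v).length : ℝ) ≤ c * Real.logb 2 (Fintype.card V)) ∧
      ∀ x y, x ≠ y → (G.graph.Adj x y ↔ f (label x) (label y) = true)

/-- The near-chain property of the neighbourhoods: if `p`, `q` are black, `p` has at most as many
neighbours as `q` and two distinct white vertices are adjacent to `p` and not to `q`, then there is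
a one-sided induced copy of `2P₃`. -/
theorem copy_of_inversions {V : Type} [Fintype V] [DecidableEq V] (G : BipartiteGraph V)
    [DecidableRel G.graph.Adj] {p q w w' : V} (hp : G.black p) (hq : G.black q)
    (hdeg : (univ.filter (fun v => G.graph.Adj v p)).card ≤
      (univ.filter (fun v => G.graph.Adj v q)).card)
    (hww : w ≠ w') (h1 : G.graph.Adj w p) (h2 : G.graph.Adj w' p) (h3 : ¬ G.graph.Adj w q)
    (h4 : ¬ G.graph.Adj w' q) : HasOneSidedCopy G := by
  classical
  set A := univ.filter (fun v => G.graph.Adj v p) with hA
  set B := univ.filter (fun v => G.graph.Adj v q) with hB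
  have hsd : (A \ B).card ≤ (B \ A).card := by
    have e1 := Finset.card_sdiff_add_card_inter A B
    have e2 := Finset.card_sdiff_add_card_inter B A
    rw [Finset.inter_comm] at e2
    omega
  have hpair : ({w, w'} : Finset V) ⊆ A \ B := by
    intro x hx
    rw [mem_insert, mem_singleton] at hx
    rw [hA, hB, mem_sdiff, mem_filter, mem_filter]
    rcases hx with rfl | rfl
    · exact ⟨⟨mem_univ _, h1⟩, fun h => h3 h.2⟩
    · exact ⟨⟨mem_univ _, h2⟩, fun h => h4 h.2⟩
  have h5 : 1 < (B \ A).card := by
    have := Finset.card_le_card hpair
    rw [Finset.card_pair hww] at this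
    omega
  obtain ⟨v, hv, v', hv', hvv⟩ := Finset.one_lt_card.mp h5
  rw [hA, hB, mem_sdiff, mem_filter, mem_filter] at hv hv'
  have h6 : G.graph.Adj v q := hv.1.2
  have h7 : ¬ G.graph.Adj v p := fun h => hv.2 ⟨mem_univ _, h⟩
  have h8 : G.graph.Adj v' q := hv'.1.2
  have h9 : ¬ G.graph.Adj v' p := fun h => hv'.2 ⟨mem_univ _, h⟩
  -- colours
  have cw : ¬ G.black w := fun h => (G.bipartite w p h1).mp h hp
  have cw' : ¬ G.black w' := fun h => (G.bipartite w' p h2).mp h hp
  have cv : ¬ G.black v := fun h => (G.bipartite v q h6).mp h hq
  have cv' : ¬ G.black v' := fun h => (G.bipartite v' q h8).mp h hq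
  have bb : ∀ x y, G.black x → G.black y → ¬ G.graph.Adj x y :=
    fun x y hx hy h => (G.bipartite x y h).mp hx hy
  have ww : ∀ x y, ¬ G.black x → ¬ G.black y → ¬ G.graph.Adj x y :=
    fun x y hx hy h => hx ((G.bipartite x y h).mpr hy)
  have hpq : p ≠ q := by rintro rfl; exact h3 h1
  have n1 : w ≠ v := by rintro rfl; exact h7 h1
  have n2 : w ≠ v' := by rintro rfl; exact h9 h1
  have n3 : w' ≠ v := by rintro rfl; exact h7 h2
  have n4 : w' ≠ v' := by rintro rfl; exact h9 h2
  have pw : ∀ x, ¬ G.black x → p ≠ x := by rintro x hx rfl; exact hx hp
  have qw : ∀ x, ¬ G.black x → q ≠ x := by rintro x hx rfl; exact hx hq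
  let g : Fin 3 ⊕ Fin 3 → V := Sum.elim ![w, p, w'] ![v, q, v']
  have hinj : Function.Injective g := by
    intro x y hxy
    rcases x with x | x <;> rcases y with y | y <;> fin_cases x <;> fin_cases y <;>
      simp only [g, Sum.elim_inl, Sum.elim_inr, Fin.zero_eta, Fin.mk_one, Fin.reduceFinMk,
        Matrix.cons_val] at hxy ⊢ <;>
      first
        | rfl
        | exact absurd hxy hww
        | exact absurd hxy.symm hww
        | exact absurd hxy hvv
        | exact absurd hxy.symm hvv
        | exact absurd hxy hpq
        | exact absurd hxy.symm hpq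
        | exact absurd hxy n1
        | exact absurd hxy.symm n1
        | exact absurd hxy n2
        | exact absurd hxy.symm n2
        | exact absurd hxy n3
        | exact absurd hxy.symm n3
        | exact absurd hxy n4
        | exact absurd hxy.symm n4
        | exact absurd hxy (pw _ cw)
        | exact absurd hxy.symm (pw _ cw)
        | exact absurd hxy (pw _ cw')
        | exact absurd hxy.symm (pw _ cw')
        | exact absurd hxy (pw _ cv)
        | exact absurd hxy.symm (pw _ cv)
        | exact absurd hxy (pw _ cv')
        | exact absurd hxy.symm (pw _ cv')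
        | exact absurd hxy (qw _ cw)
        | exact absurd hxy.symm (qw _ cw)
        | exact absurd hxy (qw _ cw')
        | exact absurd hxy.symm (qw _ cw')
        | exact absurd hxy (qw _ cv)
        | exact absurd hxy.symm (qw _ cv)
        | exact absurd hxy (qw _ cv')
        | exact absurd hxy.symm (qw _ cv')
  refine ⟨⟨⟨g, hinj⟩, ?_⟩, ?_, ?_⟩
  · intro x y
    show G.graph.Adj (g x) (g y) ↔ twoP3.Adj x y
    have d1 := h1.symm
    have d2 := h2.symm
    have d6 := h6.symm
    have d8 := h8.symm
    have d3 : ¬ G.graph.Adj q w := fun h => h3 h.symm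
    have d4 : ¬ G.graph.Adj q w' := fun h => h4 h.symm
    have d7 : ¬ G.graph.Adj p v := fun h => h7 h.symm
    have d9 : ¬ G.graph.Adj p v' := fun h => h9 h.symm
    have b1 := bb p q hp hq
    have b2 := bb q p hq hp
    have w1 := ww w w' cw cw'
    have w2 := ww w' w cw' cw
    have w3 := ww v v' cv cv'
    have w4 := ww v' v cv' cv
    have w5 := ww w v cw cv
    have w6 := ww v w cv cw
    have w7 := ww w v' cw cv'
    have w8 := ww v' w cv' cw
    have w9 := ww w' v cw' cv
    have w10 := ww v w' cv cw'
    have w11 := ww w' v' cw' cv'
    have w12 := ww v' w' cv' cw'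
    rcases x with x | x <;> rcases y with y | y <;> fin_cases x <;> fin_cases y <;>
      simp [g, twoP3, SimpleGraph.sum, SimpleGraph.pathGraph_adj, *]
  · exact hp
  · exact hq

/-- The class `𝒞` of bipartite graphs without one-sided induced `2P₃` admits an implicit
representation. -/
theorem result : AdmitsImplicitRepresentation ClassC := by
  classical
  obtain ⟨enc, f, hlen, hf⟩ := exists_decoder
  refine ⟨310, f, ?_⟩
  intro V _ G hG
  by_cases hn : Fintype.card V ≤ 1
  · refine ⟨fun _ => [], ?_, ?_⟩
    · intro v
      have h0 : Real.logb 2 (Fintype.card V) = 0 := by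
        rcases Nat.eq_zero_or_pos (Fintype.card V) with h | h
        · rw [h]; simp
        · rw [show Fintype.card V = 1 by omega]; simp
      rw [h0]; simp
    · intro x y hxy
      exact absurd ((Fintype.card_le_one_iff.mp hn) x y) hxy
  · obtain ⟨K, hK1, hK2⟩ := exists_parameter (Fintype.card V) (by omega)
    -- black and white vertices
    let B : Type := {v : V // G.black v}
    let W : Type := {v : V // ¬ G.black v}
    set m := Fintype.card B with hm
    have hmV : m ≤ Fintype.card V := Fintype.card_subtype_le _
    let deg : B → ℕ := fun b => (univ.filter (fun v => G.graph.Adj v b.1)).card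
    obtain ⟨e, he⟩ : ∃ e : Fin m ≃ B, Monotone (deg ∘ e) := by
      refine ⟨(Tuple.sort (deg ∘ (Fintype.equivFin B).symm)).trans (Fintype.equivFin B).symm, ?_⟩
      exact Tuple.monotone_sort (deg ∘ (Fintype.equivFin B).symm)
    let a : W → ℕ → Bool := fun w i =>
      if h : i < m then decide (G.graph.Adj w.1 (e ⟨i, h⟩).1) else false
    have ha : ∀ w i (h : i < m), a w i = decide (G.graph.Adj w.1 (e ⟨i, h⟩).1) := by
      intro w i h
      simp only [a, h, dite_true]
    have NC : ∀ w w', w ≠ w' → ∀ p q, p < q → q < m → a w p = true → a w' p = true →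
        a w q = false → a w' q = false → False := by
      intro w w' hne p q hpq hq h1 h2 h3 h4
      have hp : p < m := lt_trans hpq hq
      rw [ha w p hp, decide_eq_true_iff] at h1
      rw [ha w' p hp, decide_eq_true_iff] at h2
      rw [ha w q hq, decide_eq_false_iff_not] at h3
      rw [ha w' q hq, decide_eq_false_iff_not] at h4
      apply hG
      refine copy_of_inversions G (e ⟨p, hp⟩).2 (e ⟨q, hq⟩).2 ?_ ?_ h1 h2 h3 h4
      · exact he (show (⟨p, hp⟩ : Fin m) ≤ ⟨q, hq⟩ from hpq.le)
      · intro h
        exact hne (Subtype.ext h)
    obtain ⟨β, ω, hβω⟩ := family_label m a NC K (lt_of_le_of_lt hmV hK1)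
    refine ⟨fun v => if h : G.black v then enc K (Sum.inl (β (e.symm ⟨v, h⟩).1))
      else enc K (Sum.inr (ω ⟨v, h⟩)), ?_, ?_⟩
    · intro v
      have : (if h : G.black v then enc K (Sum.inl (β (e.symm ⟨v, h⟩).1))
          else enc K (Sum.inr (ω ⟨v, h⟩))).length = 155 * 2^K := by
        split_ifs <;> exact hlen K _
      rw [this]
      exact hK2
    · intro x y _
      have key : ∀ (b w : V) (hb : G.black b) (hw : ¬ G.black w),
          AdjP K (β (e.symm ⟨b, hb⟩).1) (ω ⟨w, hw⟩) ↔ G.graph.Adj w b := by
        intro b w hb hw
        have hi : (e.symm ⟨b, hb⟩).1 < m := (e.symm ⟨b, hb⟩).2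
        rw [hβω _ hi ⟨w, hw⟩, ha ⟨w, hw⟩ _ hi, decide_eq_true_iff]
        have : e ⟨(e.symm ⟨b, hb⟩).1, hi⟩ = ⟨b, hb⟩ := by
          rw [Fin.eta, Equiv.apply_symm_apply]
        rw [this]
      by_cases hx : G.black x <;> by_cases hy : G.black y
      · simp only [hx, hy, dite_true]
        rw [hf]
        constructor
        · intro h
          exact absurd hy ((G.bipartite x y h).mp hx)
        · intro h
          exact h.elim
      · simp only [hx, hy, dite_true, dite_false]
        rw [hf]
        show G.graph.Adj x y ↔ AdjP K _ _
        rw [key x y hx hy]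
        exact G.graph.adj_comm x y
      · simp only [hx, hy, dite_true, dite_false]
        rw [hf]
        show G.graph.Adj x y ↔ AdjP K _ _
        rw [key y x hy hx]
      · simp only [hx, hy, dite_false]
        rw [hf]
        constructor
        · intro h
          exact absurd ((G.bipartite x y h).mpr hy) hx
        · intro h
          exact h.elim

end Pool.Agent.Results.MP_e50eb5_co.ImplicitRepresentation
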